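import Pool.Agent.Q4.ZO.Main
import Pool.Agent.Q4.ZS.Act

/-!
# Project ZO: short definitions for the final statement
-/

open Matrix NumberField
open scoped Manifold ContDiff

namespace Q4.ZO

/-- the group generated by the elementary orthogonal group of the quadratic form
`x_1 y_1 + .. + x_p y_p + d_1 z_1 ^ 2 + .. + d_q z_q ^ 2` over the integers of the number field `F`
and the sign changes -/
def Go (F : Type) [Field F] [NumberField F] (p : ℕ) {q : ℕ} (d : Fin q → 𝓞 F) : Type :=
  Ga (p := p) d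

instance (F : Type) [Field F] [NumberField F] (p : ℕ) {q : ℕ} (d : Fin q → 𝓞 F) :
    Group (Go F p d) := inferInstanceAs (Group (Ga (p := p) d))

/-- the group of the sign changes in `Go F p d` -/
def GoD (F : Type) [Field F] [NumberField F] (p : ℕ) {q : ℕ} (d : Fin q → 𝓞 F) :
    Subgroup (Go F p d) := Ds (p := p) d

/-- the subgroup `EEO` of level `a` in `Go F p d` -/
def GoE (F : Type) [Field F] [NumberField F] (p : ℕ) {q : ℕ} (d : Fin q → 𝓞 F) (a : 𝓞 F) :
    Subgroup (Go F p d) := (EEO (p := p) d a).subgroupOf (Ga (p := p) d)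

theorem main3 (hFin : SFin) (hDg : SDg) (hNC : SNC)
    (F : Type) [Field F] [NumberField F] (p q k : ℕ) (hp : 3 ≤ p) (d : Fin q → 𝓞 F)
    (hd : ∀ i, d i ≠ 0)
    (E M : Type) [NormedAddCommGroup E] [NormedSpace ℝ E] [FiniteDimensional ℝ E]
    (hE : Module.finrank ℝ E < 2 * p + q - 1 - k)
    [TopologicalSpace M] [T2Space M] [ConnectedSpace M] [ChartedSpace E M]
    [IsManifold 𝓘(ℝ, E) 1 M] [act : MulAction (Go F p d) M] (hsm : Q4.ZS.C1Act (Go F p d) E M)
    (h : Q4.ZS.SmallOrbit (GoD F p d) M k) :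
    (∀ g ∈ GoE F p d (4 * ∏ i, d i), ∀ y : M, g • y = y) ∧ Q4.ZS.FiniteAct (Go F p d) M := by
  have key := @main hFin hDg hNC F _ _ p q k hp d hd E M _ _ _ hE _ _ _ _ _ act hsm h
  exact ⟨fun g hg => key.1 g hg, key.2⟩

end Q4.ZO
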