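import Pool.Agent.Q4.ZO.Stm
import Pool.Agent.Q4.ZI.Fin

/-!
# Project ZO: normal subgroups of finite index
-/

open Matrix NumberField

namespace Q4.ZO

section

variable {R : Type} [CommRing R] {p q : ℕ} {d : Fin q → R}

theorem EEO_le_EO (a : R) : EEO (p := p) d a ≤ EO d := by
  unfold EEO
  rw [Subgroup.closure_le]
  rintro x ⟨h, y, u, w, hh, hy, rfl⟩
  exact Subgroup.mul_mem _ (Subgroup.mul_mem _ hh (Subgroup.subset_closure ⟨u, a • w, hy⟩))
    (Subgroup.inv_mem _ hh)

theorem EEO_mono (a b : R) : EEO (p := p) d (a * b) ≤ EEO d a := by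
  unfold EEO
  rw [Subgroup.closure_le]
  rintro x ⟨h, y, u, w, hh, hy, rfl⟩
  refine Subgroup.subset_closure ⟨h, y, u, b • w, hh, ?_, rfl⟩
  rw [smul_smul]
  exact hy

/-- the congruence subgroup -/
def Cg (a : R) (p q : ℕ) : Subgroup (GL (Ix p q) R) :=
  (Matrix.GeneralLinearGroup.map (n := Ix p q) (Ideal.Quotient.mk (Ideal.span {a}))).ker

theorem mem_Cg {a : R} {g : GL (Ix p q) R} : g ∈ Cg a p q ↔
    ∀ i j, a ∣ g.1 i j - (1 : Matrix (Ix p q) (Ix p q) R) i j := by
  unfold Cg
  rw [MonoidHom.mem_ker, Units.ext_iff]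
  change (g.1.map (Ideal.Quotient.mk (Ideal.span {a}))) = 1 ↔ _
  have h2 : ∀ i j, (1 : Matrix (Ix p q) (Ix p q) (R ⧸ Ideal.span {a})) i j =
      Ideal.Quotient.mk (Ideal.span {a}) ((1 : Matrix (Ix p q) (Ix p q) R) i j) := by
    intro i j
    rw [Matrix.one_apply, Matrix.one_apply]
    split_ifs
    · rw [map_one]
    · rw [map_zero]
  constructor
  · intro h i j
    have h1 := congrFun (congrFun h i) j
    rw [Matrix.map_apply, h2, Ideal.Quotient.eq, Ideal.mem_span_singleton] at h1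
    exact h1
  · intro h
    ext i j
    rw [Matrix.map_apply, h2, Ideal.Quotient.eq, Ideal.mem_span_singleton]
    exact h i j

theorem EEO_le_Cg (a : R) : EEO (p := p) d a ≤ Cg a p q := by
  unfold EEO
  rw [Subgroup.closure_le]
  rintro x ⟨h, y, u, w, hh, hy, rfl⟩
  have hy' : y ∈ Cg a p q := by
    rw [mem_Cg]
    intro i j
    have h1 := congrFun (hy.1 (Pi.single j 1)) i
    rw [Matrix.mulVec_single_one, Matrix.col_apply] at h1
    have h2 : (1 : Matrix (Ix p q) (Ix p q) R) i j = (Pi.single j 1 : Ix p q → R) i := by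
      rw [Matrix.one_apply, Pi.single_apply]
    have h3 : Bf d (Pi.single j 1) (a • w) = a * Bf d (Pi.single j 1) w := by
      unfold Bf
      rw [mul_add, Finset.mul_sum, Finset.mul_sum]
      congr 1
      · refine Finset.sum_congr rfl fun k _ => ?_
        simp only [Pi.smul_apply, smul_eq_mul]
        ring
      · refine Finset.sum_congr rfl fun k _ => ?_
        simp only [Pi.smul_apply, smul_eq_mul]
        ring
    have h4 : Qf d (a • w) = a * (a * Qf d w) := by
      unfold Qf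
      rw [mul_add, mul_add, Finset.mul_sum, Finset.mul_sum, Finset.mul_sum, Finset.mul_sum]
      congr 1
      · refine Finset.sum_congr rfl fun k _ => ?_
        simp only [Pi.smul_apply, smul_eq_mul]
        ring
      · refine Finset.sum_congr rfl fun k _ => ?_
        simp only [Pi.smul_apply, smul_eq_mul]
        ring
    rw [h1, h2, h3, h4]
    refine ⟨Bf d (Pi.single j 1) u * w i -
      (Bf d (Pi.single j 1) w + a * Qf d w * Bf d (Pi.single j 1) u) * u i, ?_⟩
    simp only [Pi.sub_apply, Pi.add_apply, Pi.smul_apply, smul_eq_mul]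
    ring
  have hn : (Cg a p q).Normal := by
    unfold Cg
    infer_instance
  exact hn.conj_mem y hy' h

end

theorem EO_le_Ga {R : Type} [CommRing R] {p q : ℕ} (d : Fin q → R) : EO (p := p) d ≤ Ga d :=
  le_sup_left

/-- centrality -/
theorem central (hDec : SDecG) (hCen : SCen) (hNrm : SNrm) {R : Type} [CommRing R]
    [IsDedekindDomain R] (m q : ℕ) (d : Fin q → R) (a : R)
    (ha0 : a ≠ 0) (hau : ¬ IsUnit a) (had : ∀ k, 2 * d k ∣ a) (ha2 : 2 ∣ a)
    (N : Subgroup (EO (p := m + 3) d)) (hN : N.Normal)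
    (hNE : ∀ x : EO (p := m + 3) d, x.1 ∈ EEO d a → x ∈ N)
    (g : EO (p := m + 3) d) (hg : g.1 ∈ Cg a (m + 3) q) (y : EO (p := m + 3) d) :
    (QuotientGroup.mk g : EO (p := m + 3) d ⧸ N) * QuotientGroup.mk y =
      QuotientGroup.mk y * QuotientGroup.mk g := by
  have hiso : ∀ x ∈ EO (p := m + 3) d, IsIso d x := fun x hx =>
    (hNrm R (m + 3) q d).2 x (EO_le_Ga d hx)
  obtain ⟨x, hx, hx1, hx2⟩ := hDec R m q d a ha0 hau had ha2 g.1 (hiso _ g.2) (mem_Cg.1 hg)
  let x' : EO (p := m + 3) d := ⟨x, EEO_le_EO a hx⟩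
  have hx' : x' ∈ N := hNE x' hx
  have hg' : (x' * g).1 ∈ Cg a (m + 3) q := Subgroup.mul_mem _ (EEO_le_Cg a hx) hg
  have e1 : (QuotientGroup.mk g : EO (p := m + 3) d ⧸ N) = QuotientGroup.mk (x' * g) := by
    have h1 : (QuotientGroup.mk x' : EO (p := m + 3) d ⧸ N) = 1 :=
      (QuotientGroup.eq_one_iff x').2 hx'
    rw [QuotientGroup.mk_mul, h1, one_mul]
  rw [e1]
  have h2 : (x' * g) * y * (x' * g)⁻¹ * y⁻¹ ∈ N :=
    hNE _ (hCen R m q d a (x' * g).1 (hiso _ (x' * g).2) (mem_Cg.1 hg') hx1 hx2 y.1 y.2)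
  have h3 : (QuotientGroup.mk (x' * g * y * (x' * g)⁻¹ * y⁻¹) : EO (p := m + 3) d ⧸ N) = 1 :=
    (QuotientGroup.eq_one_iff _).2 h2
  rw [QuotientGroup.mk_mul, QuotientGroup.mk_mul, QuotientGroup.mk_mul, QuotientGroup.mk_inv,
    QuotientGroup.mk_inv, mul_inv_eq_one, mul_inv_eq_iff_eq_mul] at h3
  exact h3

/-- finite index in the elementary group -/
theorem fin_EO (hDec : SDecG) (hCen : SCen) (hPerf : SPerf) (hNrm : SNrm)
    (F : Type) [Field F] [NumberField F] (m q : ℕ) (d : Fin q → 𝓞 F) (a : 𝓞 F) (ha0 : a ≠ 0)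
    (had : ∀ k, 2 * d k ∣ a) (ha2 : 2 ∣ a) (N : Subgroup (EO (p := m + 3) d)) (hN : N.Normal)
    (hNE : ∀ x : EO (p := m + 3) d, x.1 ∈ EEO d a → x ∈ N) : N.FiniteIndex := by
  by_cases hau : IsUnit a
  · have : N = ⊤ := by
      obtain ⟨u, rfl⟩ := hau
      rw [eq_top_iff]
      rintro ⟨x, hx⟩ -
      refine hNE _ ?_
      change x ∈ EEO d (u : 𝓞 F)
      have hle : EO (p := m + 3) d ≤ EEO d (u : 𝓞 F) := by
        conv_lhs => unfold EO
        rw [Subgroup.closure_le]
        rintro y ⟨v, w, hy⟩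
        refine Subgroup.subset_closure ⟨1, y, v, (↑u⁻¹ : 𝓞 F) • w, Subgroup.one_mem _, ?_, ?_⟩
        · rw [smul_smul, Units.mul_inv, one_smul]
          exact hy
        · rw [inv_one, mul_one, one_mul]
      exact hle hx
    rw [this]
    infer_instance
  · -- the congruence subgroup
    have hI : Finite (𝓞 F ⧸ Ideal.span {a}) := by
      refine Ideal.finiteQuotientOfFreeOfNeBot _ ?_
      rw [Ne, Ideal.span_singleton_eq_bot]
      exact ha0
    have hCg : (Cg a (m + 3) q).FiniteIndex := by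
      unfold Cg
      have : Finite (GL (Ix (m + 3) q) (𝓞 F ⧸ Ideal.span {a})) := inferInstance
      infer_instance
    have hCE : ((Cg a (m + 3) q).subgroupOf (EO (p := m + 3) d)).FiniteIndex := inferInstance
    have hcen : (Subgroup.center (EO (p := m + 3) d ⧸ N)).FiniteIndex := by
      have h1 : (Cg a (m + 3) q).subgroupOf (EO (p := m + 3) d) ≤
          (Subgroup.center (EO (p := m + 3) d ⧸ N)).comap (QuotientGroup.mk' N) := by
        intro g hg
        rw [Subgroup.mem_comap, Subgroup.mem_center_iff]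
        intro r
        obtain ⟨y, rfl⟩ := QuotientGroup.mk_surjective r
        exact (central hDec hCen hNrm m q d a ha0 hau had ha2 N hN hNE g hg y).symm
      have h2 := Subgroup.finiteIndex_of_le h1
      constructor
      rw [← Subgroup.index_comap_of_surjective _ (QuotientGroup.mk'_surjective N)]
      exact h2.index_ne_zero
    have hperf : commutator (EO (p := m + 3) d ⧸ N) = ⊤ := by
      rw [commutator_def, eq_top_iff]
      have h1 : (commutator (EO (p := m + 3) d)).map (QuotientGroup.mk' N) ≤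
          ⁅(⊤ : Subgroup (EO (p := m + 3) d ⧸ N)), ⊤⁆ := by
        rw [commutator_def, Subgroup.map_commutator]
        exact Subgroup.commutator_mono le_top le_top
      rw [hPerf] at h1
      rwa [Subgroup.map_top_of_surjective _ (QuotientGroup.mk'_surjective N)] at h1
    have hfin : Finite (EO (p := m + 3) d ⧸ N) := Q4.ZI.finite_of_center hcen hperf
    exact Subgroup.finiteIndex_of_finite_quotient

theorem tFin (hDec : SDecG) (hCen : SCen) (hPerf : SPerf) (hNrm : SNrm) (hDg : SDg) : SFin := by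
  intro F _ _ m q d hd a ha0 N hN hNE
  have h20 : (2 : 𝓞 F) ≠ 0 := by norm_num
  have hfinD : Finite (Dg (𝓞 F) (m + 3) q) := (hDg (𝓞 F) h20 (m + 3) q).1
  -- the elementary group in `Ga`
  set H := (EO (p := m + 3) d).subgroupOf (Ga d) with hH
  have hHn : H.Normal := (hNrm (𝓞 F) (m + 3) q d).1
  have hHfi : H.FiniteIndex := by
    have h1 : H ⊔ (Dg (𝓞 F) (m + 3) q).subgroupOf (Ga d) = ⊤ := by
      have h0 := Subgroup.subgroupOf_sup (A := EO (p := m + 3) d) (A' := Dg (𝓞 F) (m + 3) q)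
        (B := Ga d) le_sup_left le_sup_right
      rw [hH, ← h0]
      exact Subgroup.subgroupOf_self _
    have h2 : ((Dg (𝓞 F) (m + 3) q).subgroupOf (Ga (p := m + 3) d)).map (QuotientGroup.mk' H) =
        ⊤ := by
      have h3 := congrArg (Subgroup.map (QuotientGroup.mk' H)) h1
      rw [Subgroup.map_sup, QuotientGroup.map_mk'_self, bot_sup_eq,
        Subgroup.map_top_of_surjective _ (QuotientGroup.mk'_surjective H)] at h3
      exact h3
    have hf : Finite ((Dg (𝓞 F) (m + 3) q).subgroupOf (Ga (p := m + 3) d)) :=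
      Finite.of_injective (fun x => (⟨x.1.1, x.2⟩ : Dg (𝓞 F) (m + 3) q)) fun x y h => by
        have h4 : x.1.1 = y.1.1 := congrArg (fun t => t.1) h
        exact Subtype.ext (Subtype.ext h4)
    have hfq : Finite (Ga (p := m + 3) d ⧸ H) := by
      refine Finite.of_surjective
        (fun x : (Dg (𝓞 F) (m + 3) q).subgroupOf (Ga (p := m + 3) d) =>
          (QuotientGroup.mk' H) x.1) fun y => ?_
      have hy : y ∈ ((Dg (𝓞 F) (m + 3) q).subgroupOf (Ga (p := m + 3) d)).map
          (QuotientGroup.mk' H) := by rw [h2]; exact Subgroup.mem_top y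
      obtain ⟨x, hx, e⟩ := hy
      exact ⟨⟨x, hx⟩, e⟩
    exact Subgroup.finiteIndex_of_finite_quotient
  -- the level
  let b : 𝓞 F := 2 * ∏ k, d k
  have hb0 : b ≠ 0 := mul_ne_zero h20 (Finset.prod_ne_zero_iff.2 fun k _ => hd k)
  have hab0 : a * b ≠ 0 := mul_ne_zero ha0 hb0
  have had : ∀ k, 2 * d k ∣ a * b := fun k =>
    Dvd.dvd.mul_left (mul_dvd_mul_left 2 (Finset.dvd_prod_of_mem d (Finset.mem_univ k))) a
  have ha2 : 2 ∣ a * b := Dvd.dvd.mul_left (Dvd.intro _ rfl) a
  let ι : EO (p := m + 3) d →* Ga (p := m + 3) d := Subgroup.inclusion (EO_le_Ga d)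
  have hfi : (N.comap ι).FiniteIndex := by
    refine fin_EO hDec hCen hPerf hNrm F m q d (a * b) hab0 had ha2 (N.comap ι) inferInstance ?_
    intro x hx
    exact hNE (ι x) (EEO_mono a b hx)
  have h5 : N.relIndex ι.range ≠ 0 := by
    rw [← Subgroup.index_comap]
    exact hfi.index_ne_zero
  have h6 : ι.range = H := by
    rw [hH]
    exact Subgroup.inclusion_range (EO_le_Ga d)
  rw [h6] at h5
  have h7 : (N ⊓ H).index ≠ 0 := by
    rw [← Subgroup.relIndex_mul_index (inf_le_right : N ⊓ H ≤ H), Subgroup.inf_relIndex_right]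
    exact mul_ne_zero h5 hHfi.index_ne_zero
  have h8 : (N ⊓ H).FiniteIndex := ⟨h7⟩
  exact Subgroup.finiteIndex_of_le (inf_le_left : N ⊓ H ≤ N)

end Q4.ZO
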