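import Pool.Agent.Q4.ZO.Stm
import Pool.Agent.Q4.ZS.Eul2
import Pool.Agent.Q4.ZI.Loc

/-!
# Project ZO: the main theorem from the lemma jobs
-/

open Matrix NumberField
open scoped Manifold ContDiff

namespace Q4.ZO

theorem main (hFin : SFin) (hDg : SDg) (hNC : SNC)
    (F : Type) [Field F] [NumberField F] (p q k : ℕ) (hp : 3 ≤ p) (d : Fin q → 𝓞 F)
    (hd : ∀ k, d k ≠ 0)
    (E M : Type) [NormedAddCommGroup E] [NormedSpace ℝ E] [FiniteDimensional ℝ E]
    (hE : Module.finrank ℝ E < 2 * p + q - 1 - k)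
    [TopologicalSpace M] [T2Space M] [ConnectedSpace M] [ChartedSpace E M]
    [IsManifold 𝓘(ℝ, E) 1 M] [MulAction (Ga (p := p) d) M]
    (hsm : ∀ g : Ga (p := p) d, ContMDiff 𝓘(ℝ, E) 𝓘(ℝ, E) 1 (fun y : M => g • y))
    (h : (∃ x : M, Nat.card (MulAction.orbit (Ds (p := p) d) x) ≤ 2 ^ k) ∨
      ∃ T : Q4.ZI.Tri (Ds (p := p) d) M, ¬ (2 : ℤ) ^ (k + 1) ∣ T.chi) :
    (∀ g : Ga (p := p) d, g.1 ∈ EEO d (4 * ∏ k, d k) → ∀ y : M, g • y = y) ∧
      Finite (MulAction.toPermHom (Ga (p := p) d) M).range := by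
  have h20 : (2 : 𝓞 F) ≠ 0 := by norm_num
  obtain ⟨hfinD, hpD, hrep⟩ := hDg (𝓞 F) h20 p q
  have hle : Dg (𝓞 F) p q ≤ Ga d := le_sup_right
  let ψ : Dg (𝓞 F) p q ≃* Ds (p := p) d := (Subgroup.subgroupOfEquivOfLe hle).symm
  have hψ : ∀ x, (ψ x).1.1 = x.1 := fun x => rfl
  have hfinD' : Finite (Ds (p := p) d) := Finite.of_equiv _ ψ.toEquiv
  have hpD' : IsPGroup 2 (Ds (p := p) d) := hpD.of_equiv ψ
  -- the point with a small orbit
  obtain ⟨x, hx⟩ : ∃ x : M, Nat.card (MulAction.orbit (Ds (p := p) d) x) ≤ 2 ^ k := by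
    rcases h with ⟨x, hx⟩ | ⟨T, hT⟩
    · exact ⟨x, hx⟩
    · have : Fact (Nat.Prime 2) := ⟨Nat.prime_two⟩
      exact Q4.ZS.tEul2 2 (Ds (p := p) d) M hpD' T k (by exact_mod_cast hT)
  -- the stabilizer
  let S : Subgroup (Dg (𝓞 F) p q) := (MulAction.stabilizer (Ds (p := p) d) x).comap ψ.toMonoidHom
  have hS : S.index ≤ 2 ^ k := by
    have h1 : (MulAction.stabilizer (Ds (p := p) d) x).index =
        Nat.card (MulAction.orbit (Ds (p := p) d) x) := MulAction.index_stabilizer _ _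
    have h2 : S.index = (MulAction.stabilizer (Ds (p := p) d) x).index :=
      Subgroup.index_comap_of_surjective _ ψ.surjective
    rw [h2, h1]
    exact hx
  have hSx : ∀ s : S, ψ s.1 • x = x := fun s => s.2
  let act : MulAction S M :=
    { smul := fun s y => ψ s.1 • y
      one_smul := fun y => by
        change ψ 1 • y = y
        rw [map_one, one_smul]
      mul_smul := fun s t y => by
        change ψ (s.1 * t.1) • y = ψ s.1 • ψ t.1 • y
        rw [map_mul, mul_smul] }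
  obtain ⟨ρ, hρ⟩ := Q4.ZI.tLoc E M S (fun s => hsm (ψ s.1).1) x hSx
  obtain ⟨s, hs, hs1, hs2⟩ := hrep k S hS E ρ hE
  set N := (MulAction.toPermHom (Ga (p := p) d) M).ker with hN
  have hmem : ∀ g : Ga (p := p) d, g ∈ N ↔ ∀ y : M, g • y = y := by
    intro g
    rw [hN, MonoidHom.mem_ker]
    constructor
    · intro h y
      exact congrArg (fun f : Equiv.Perm M => f y) h
    · intro h
      exact Equiv.ext h
  obtain ⟨m, rfl⟩ : ∃ m, p = m + 3 := ⟨p - 3, by omega⟩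
  have hzN : (ψ s.1).1 ∈ N := (hmem _).2 fun y => hρ s hs y
  have hEE : ∀ g : Ga (p := m + 3) d, g.1 ∈ EEO d (4 * ∏ k, d k) → g ∈ N :=
    hNC (𝓞 F) m q d N inferInstance (ψ s.1).1 hzN (ψ s.1).2 hs1 hs2
  refine ⟨fun g hg => (hmem g).1 (hEE g hg), ?_⟩
  have h4 : (4 : 𝓞 F) * ∏ k, d k ≠ 0 :=
    mul_ne_zero (by norm_num) (Finset.prod_ne_zero_iff.2 fun k _ => hd k)
  have hfi : N.FiniteIndex := hFin F m q d hd _ h4 N inferInstance hEE
  have : Finite (Ga (p := m + 3) d ⧸ N) := Subgroup.finite_quotient_of_finiteIndex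
  exact Finite.of_equiv _ (QuotientGroup.quotientKerEquivRange _).toEquiv

end Q4.ZO
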