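import Pool.Agent.Q4.ZI.Stm

/-!
# Project ZO (helper4): Zimmer's conjecture for orthogonal groups over rings of integers

Definitions and the statements of the lemma jobs.
-/

open Matrix NumberField
open scoped Manifold ContDiff

namespace Q4.ZO

/-- the index set of the basis `e_i`, `f_i` (`i < p`), `g_k` (`k < q`) -/
abbrev Ix (p q : ℕ) : Type := Fin p ⊕ (Fin p ⊕ Fin q)

/-- the basis vectors `e_i` -/
def ve (R : Type) [CommRing R] {p q : ℕ} (i : Fin p) : Ix p q → R := Pi.single (Sum.inl i) 1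

/-- the basis vectors `f_i` -/
def vf (R : Type) [CommRing R] {p q : ℕ} (i : Fin p) : Ix p q → R :=
  Pi.single (Sum.inr (Sum.inl i)) 1

/-- the basis vectors `g_k` -/
def vg (R : Type) [CommRing R] {p q : ℕ} (k : Fin q) : Ix p q → R :=
  Pi.single (Sum.inr (Sum.inr k)) 1

section

variable {R : Type} [CommRing R] {p q : ℕ} (d : Fin q → R)

/-- the quadratic form `∑ x_i y_i + ∑ d_k z_k ^ 2` of the vector `∑ x_i e_i + y_i f_i + ∑ z_k g_k` -/
def Qf (v : Ix p q → R) : R :=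
  ∑ i, v (Sum.inl i) * v (Sum.inr (Sum.inl i)) + ∑ k, d k * v (Sum.inr (Sum.inr k)) ^ 2

/-- its polar form `Qf (v + w) - Qf v - Qf w` -/
def Bf (v w : Ix p q → R) : R :=
  ∑ i, (v (Sum.inl i) * w (Sum.inr (Sum.inl i)) + v (Sum.inr (Sum.inl i)) * w (Sum.inl i)) +
    ∑ k, 2 * d k * v (Sum.inr (Sum.inr k)) * w (Sum.inr (Sum.inr k))

/-- `x` is the Eichler transformation `v ↦ v + ⟨v, u⟩ w - ⟨v, w⟩ u - Q(w) ⟨v, u⟩ u` -/
def IsEi (x : GL (Ix p q) R) (u w : Ix p q → R) : Prop :=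
  ∀ v, x.1 *ᵥ v = v + Bf d v u • w - (Bf d v w + Qf d w * Bf d v u) • u

/-- `x` is the Eichler transformation of `e_i` or `f_i` and `w`, `w` in the span of the other basis
vectors -/
def IsGen (x : GL (Ix p q) R) (u w : Ix p q → R) : Prop :=
  IsEi d x u w ∧ ∃ i : Fin p, (u = ve R i ∨ u = vf R i) ∧ w (Sum.inl i) = 0 ∧
    w (Sum.inr (Sum.inl i)) = 0

/-- the elementary orthogonal group of the form -/
def EO : Subgroup (GL (Ix p q) R) := Subgroup.closure {x | ∃ u w, IsGen d x u w}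

/-- the normal subgroup of `EO d` generated by the Eichler transformations with `w` divisible by
`a` -/
def EEO (a : R) : Subgroup (GL (Ix p q) R) :=
  Subgroup.closure {x | ∃ (h y : GL (Ix p q) R) (u w : Ix p q → R), h ∈ EO d ∧
    IsGen d y u (a • w) ∧ x = h * y * h⁻¹}

/-- the linear isometries of the form -/
def IsIso (x : GL (Ix p q) R) : Prop := ∀ v, Qf d (x.1 *ᵥ v) = Qf d v

end

/-- the matrices which map each pair `e_i, f_i` to `± (e_i, f_i)` or `± (f_i, e_i)` and each `g_k` to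
`± g_k`: the sign changes of the orthogonal basis `e_i + f_i`, `e_i - f_i`, `g_k` -/
def Dg (R : Type) [CommRing R] (p q : ℕ) : Subgroup (GL (Ix p q) R) where
  carrier := {x | (∀ i : Fin p, ∃ s : ℤˣ, (x.1 *ᵥ ve R i = s • ve R i ∧ x.1 *ᵥ vf R i = s • vf R i) ∨
      (x.1 *ᵥ ve R i = s • vf R i ∧ x.1 *ᵥ vf R i = s • ve R i)) ∧
    ∀ k : Fin q, ∃ s : ℤˣ, x.1 *ᵥ vg R k = s • vg R k}
  one_mem' := by
    refine ⟨fun i => ⟨1, Or.inl ⟨?_, ?_⟩⟩, fun k => ⟨1, ?_⟩⟩ <;>
    · rw [one_smul]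
      exact Matrix.one_mulVec _
  mul_mem' := by
    rintro x y ⟨hx, hx'⟩ ⟨hy, hy'⟩
    have key : ∀ v, (x * y).1 *ᵥ v = x.1 *ᵥ (y.1 *ᵥ v) := by
      intro v
      rw [Matrix.mulVec_mulVec]
      rfl
    have hs : ∀ (s : ℤˣ) v, x.1 *ᵥ (s • v) = s • (x.1 *ᵥ v) := by
      intro s v
      rcases Int.units_eq_one_or s with rfl | rfl
      · rw [one_smul, one_smul]
      · rw [Units.neg_smul, Units.neg_smul, one_smul, one_smul, Matrix.mulVec_neg]
    refine ⟨fun i => ?_, fun k => ?_⟩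
    · obtain ⟨s, hs1⟩ := hx i
      obtain ⟨t, ht1⟩ := hy i
      refine ⟨t * s, ?_⟩
      rcases hs1 with ⟨h1, h2⟩ | ⟨h1, h2⟩ <;> rcases ht1 with ⟨h3, h4⟩ | ⟨h3, h4⟩
      · left
        rw [key, key, h3, h4, hs, hs, h1, h2, smul_smul, smul_smul]
        exact ⟨rfl, rfl⟩
      · right
        rw [key, key, h3, h4, hs, hs, h1, h2, smul_smul, smul_smul]
        exact ⟨rfl, rfl⟩
      · right
        rw [key, key, h3, h4, hs, hs, h1, h2, smul_smul, smul_smul]
        exact ⟨rfl, rfl⟩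
      · left
        rw [key, key, h3, h4, hs, hs, h1, h2, smul_smul, smul_smul]
        exact ⟨rfl, rfl⟩
    · obtain ⟨s, hs1⟩ := hx' k
      obtain ⟨t, ht1⟩ := hy' k
      refine ⟨t * s, ?_⟩
      rw [key, ht1, hs, hs1, smul_smul]
  inv_mem' := by
    rintro x ⟨hx, hx'⟩
    have hs : ∀ (s : ℤˣ) v, (x⁻¹).1 *ᵥ (s • v) = s • ((x⁻¹).1 *ᵥ v) := by
      intro s v
      rcases Int.units_eq_one_or s with rfl | rfl
      · rw [one_smul, one_smul]
      · rw [Units.neg_smul, Units.neg_smul, one_smul, one_smul, Matrix.mulVec_neg]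
    have key : ∀ v w (s : ℤˣ), x.1 *ᵥ v = s • w → (x⁻¹).1 *ᵥ w = s • v := by
      intro v w s h
      have h1 : (x⁻¹).1 *ᵥ (x.1 *ᵥ v) = v := by
        rw [Matrix.mulVec_mulVec, ← Units.val_mul, inv_mul_cancel, Units.val_one,
          Matrix.one_mulVec]
      rw [h, hs] at h1
      rw [← h1, smul_smul, Int.units_mul_self, one_smul]
    refine ⟨fun i => ?_, fun k => ?_⟩
    · obtain ⟨s, hs1⟩ := hx i
      refine ⟨s, ?_⟩
      rcases hs1 with ⟨h1, h2⟩ | ⟨h1, h2⟩
      · left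
        exact ⟨key _ _ _ h1, key _ _ _ h2⟩
      · right
        exact ⟨key _ _ _ h2, key _ _ _ h1⟩
    · obtain ⟨s, hs1⟩ := hx' k
      exact ⟨s, key _ _ _ hs1⟩

/-- the group generated by the elementary orthogonal group and the sign changes -/
def Ga {R : Type} [CommRing R] {p q : ℕ} (d : Fin q → R) : Subgroup (GL (Ix p q) R) :=
  EO d ⊔ Dg R p q

/-- the group of the sign changes as a subgroup of `Ga d` -/
def Ds {R : Type} [CommRing R] {p q : ℕ} (d : Fin q → R) : Subgroup (Ga (p := p) d) :=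
  (Dg R p q).subgroupOf (Ga d)

/-!
Formulas for the docstrings below. Write `⟨v, w⟩ = Bf d v w`, `Q = Qf d`, `E(u, w)` for the Eichler
transformation (`Q(u) = 0`, `⟨u, w⟩ = 0`), as a matrix
`1 + w (B u)ᵀ - u (B w)ᵀ - Q(w) u (B u)ᵀ`, `B` the Gram matrix of `⟨ , ⟩`. It is an isometry,
`g E(u, w) g⁻¹ = E(g u, g w)` for isometries `g`, `E(u, w) E(u, w') = E(u, w + w')`,
`E(c u, w) = E(u, c w)`; for `Q(w) = 0` also `E(u, w) = E(w, -u)`; for isotropic orthogonal
`u, u'` orthogonal to `w`: `E(u + u', w) = E(u, Q(w) u') E(u', w) E(u, w)`.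
`X_ij(c) = E(e_i, -c f_j)`: `x_i ↦ x_i + c x_j`, `y_j ↦ y_j - c y_i` (`i ≠ j`);
`Y_ij(c) = E(e_i, -c e_j)`: `x_i ↦ x_i + c y_j`, `x_j ↦ x_j - c y_i`;
`Z_ij(c) = E(f_i, -c f_j)`; `E(e_i, c g_k)`: `z_k ↦ z_k + c y_i`,
`x_i ↦ x_i - 2 c d_k z_k - c² d_k y_i`. `E(e_i, w)` with general `w` in the span of the other basis
vectors is a product of such by additivity.
-/

/-- JOB ZO-TRA. Transitivity on unimodular isotropic vectors.

Proof. `v = (x, y, z)`; `v' =` the components of `v` different from the index `0` (in `Fin (m + 3)`,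
written `1, 2, 3` in the following for `0, 1, 2`); all Eichler transformations with `w` divisible by
`a` are in `EEO`. (1) Apply `E(e_1, w)`, `w = a t e_2 + a s f_2`: `v' ↦ v' + y_1 w`, `y_1` is fixed,
`x_1 ↦ x_1 - ⟨v', w⟩ - Q(w) y_1`. If `y_1 ≠ 0` choose `t` with `x_2 + y_1 a t ≠ 0` and then, by the
Chinese remainder theorem, `s` with `y_2 + y_1 a s ∉ P` for the (finitely many) primes `P` which
contain `x_2 + y_1 a t` but not `a`, `y_1`. Then no prime contains `x_1` and all components of `v'`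
(such a prime does not contain `a` because `x_1 = 1 mod a`, so it contains `y_1`, and `v` would not be
unimodular). If `y_1 = 0` this is true without change. (2) Now `(x_1, v')` is unimodular, and
`x_1 ≠ 0` as `a` is not a unit. Apply `E(e_2, w)`, `w ∈ a span(e_j, f_j (j ≥ 3), g_k)`:
`x_2 ↦ x_2 - ⟨u, w⟩ - Q(w) y_2`, `u` = the components of `v` in that span; `x_1`, `y_1` are fixed.
For each of the finitely many primes `P` containing `x_1` (they do not contain `a`, so not `2 d_k`)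
there is `w` modulo `P` with `x_2 - ⟨u, w⟩ - Q(w) y_2 ∉ P`: `w = 0` if `x_2 ∉ P`; if `x_2, y_2 ∈ P`
then `u ≠ 0 mod P` and the form is nondegenerate; if `x_2 ∈ P`, `y_2 ∉ P` one of `e_3`, `f_3`,
`e_3 + f_3` does it. By the Chinese remainder theorem we get `(x_1, x_2)` unimodular,
`p_1 x_1 + p_2 x_2 = 1`. (3) `X_31(c_1)`, `X_32(c_2)` change `x_3` to `x_3 + c_1 x_1 + c_2 x_2`
(and some `y`'s): get `x_3 = -(x_1 - 1)`. (4) `X_13(1)` changes `x_1` to `1` (`y_3` to `y_3 - y_1`).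
(5) `E(f_1, -v')`, `v'` = the components different from the index `0`, changes `v'` to `0`
(`v' ↦ v' + x_1 w`), then `y_1 = 0` as the vector is isotropic, so it is `e_1`. (6) `X_13(-1)` fixes
`e_1`. The product of (4), (5), (6) is a conjugate of an element of `EEO` by `X_13(1)`. -/
def STra : Prop :=
  ∀ (R : Type) [CommRing R] [IsDomain R] [IsDedekindDomain R] (m q : ℕ) (d : Fin q → R) (a : R),
    a ≠ 0 → ¬ IsUnit a → (∀ k, 2 * d k ∣ a) → 2 ∣ a →
    ∀ v : Ix (m + 3) q → R, Ideal.span (Set.range v) = ⊤ → Qf d v = 0 →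
    (∀ j, a ∣ v j - ve R 0 j) → ∃ g ∈ EEO d a, g.1 *ᵥ v = ve R 0

/-- JOB ZO-DEC (given `STra` as hypothesis).

Proof. Let `v = g e_0`; it is unimodular (`g` is invertible), isotropic and `e_0` modulo `a`. `STra`
gives `x`, `g' = x g` fixes `e_0`. `v = g' f_0` is isotropic, `f_0` modulo `a`, its component `y_0` is
`⟨e_0, g' f_0⟩ = ⟨g' e_0, g' f_0⟩ = 1`. `E(e_0, -v')`, `v'` = the components of `v` at the indices
different from `e_0`, `f_0`, fixes `e_0` and maps `v` to a vector with `v' = 0`, so to `f_0`.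
(Elements of `EEO d a` are isometries and `1` modulo `a`; isometries preserve `Bf`.) -/
def SDecG : Prop :=
  ∀ (R : Type) [CommRing R] [IsDomain R] [IsDedekindDomain R] (m q : ℕ) (d : Fin q → R) (a : R),
    a ≠ 0 → ¬ IsUnit a → (∀ k, 2 * d k ∣ a) → 2 ∣ a →
    ∀ g : GL (Ix (m + 3) q) R, IsIso d g →
    (∀ i j, a ∣ g.1 i j - (1 : Matrix (Ix (m + 3) q) (Ix (m + 3) q) R) i j) →
    ∃ x ∈ EEO d a, (x * g).1 *ᵥ ve R 0 = ve R 0 ∧ (x * g).1 *ᵥ vf R 0 = vf R 0

/-- JOB ZO-CEN. Isometries which are `1` modulo `a` and fix `e_0`, `f_0` commute with `EO` modulo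
`EEO`.

Proof. `g E(e_0, w) g⁻¹ E(e_0, w)⁻¹ = E(e_0, g w - w)`, and `g w - w` is divisible by `a` and
orthogonal to `e_0`, `f_0` if `w` is; the same for `f_0`. The `E(e_0, w)`, `E(f_0, w)` generate `EO`:
for `i ≠ 0`, `w` in the span of the basis vectors different from `e_0, f_0, e_i, f_i`: the commutator
of `E(e_0, w')`, `w' = ± e_i`, and `E(f_0, w)` is `E(f_0 + e_i, w) E(f_0, -w)` up to signs, which is
`E(f_0, Q(w) e_i) E(e_i, w)` (up to the order of the factors); the same for `f_i`; and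
`E(e_i, c e_0) = E(e_0, -c e_i)` and so on. The set of `y ∈ EO` with `g y g⁻¹ y⁻¹ ∈ EEO` is closed
under products and inverses as `EO` normalises `EEO` (`[g, y z] = [g, y] * y [g, z] y⁻¹`). -/
def SCen : Prop :=
  ∀ (R : Type) [CommRing R] [IsDomain R] (m q : ℕ) (d : Fin q → R) (a : R)
    (g : GL (Ix (m + 3) q) R), IsIso d g →
    (∀ i j, a ∣ g.1 i j - (1 : Matrix (Ix (m + 3) q) (Ix (m + 3) q) R) i j) →
    g.1 *ᵥ ve R 0 = ve R 0 → g.1 *ᵥ vf R 0 = vf R 0 →
    ∀ y ∈ EO (p := m + 3) d, g * y * g⁻¹ * y⁻¹ ∈ EEO d a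

/-- JOB ZO-PERF. `EO` is perfect for `p ≥ 3`.

Proof. For different `i, j, l`: `X_ij(c)` is the commutator of `X_il(c)` and `X_lj(1)`; `Y_ij(c)` is
the commutator of `X_il(c)` and `Y_lj(1)`, `Z_ij(c)` of `Z_il(c)` and `X_lj(1)` (up to signs).
`E(e_i, c g_k)` is up to an element `Y_ij(± c d_k)` the commutator of `X_ij(c)` and `E(e_j, g_k)`:
`E(e_j + c e_i, g_k) E(e_j, -g_k) = E(e_j, c d_k e_i) E(e_i, c g_k)`; the same for `f_i`. -/
def SPerf : Prop :=
  ∀ (R : Type) [CommRing R] (m q : ℕ) (d : Fin q → R), commutator (EO (p := m + 3) d) = ⊤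

/-- JOB ZO-NC. A normal subgroup of `Ga` which contains a non-scalar sign change contains
`EEO (4 ∏ d_k)`.

Proof. Let `t ∈ N ∩ Dg` be not `± 1`. (1) Suppose that `t = s` (a sign) on `span(e_i, f_i)` for some
`i`. (1a) If `t = -s` on `span(e_j, f_j)` the commutator of `t` and `X_ij(c)` is `X_ij(-2c)`. (1b) If
`t e_j = s' f_j`, `t f_j = s' e_j`, the commutator of `t` and `X_ij(c)` is
`E(e_i, w)`, `w = -s s' c e_j + c f_j`; its commutator with `X_jl(1)`, `l ≠ i, j`, is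
`X_il(± c)`. (1c) If `t g_k = -s g_k` the commutator of `t` and `E(e_i, c g_k)` is
`E(e_i, -2 c g_k)`, and the commutator of this and `E(e_j, g_k)` is `E(e_j, 4 c d_k e_i) =
Y_ji(-4 c d_k)`. (2) Otherwise `t` exchanges `e_i` and `f_i` up to sign for all `i`, the commutator
of `t` and `X_ij(c)` is `X_ji(± c) X_ij(-c)`, and the commutator of this and `X_il(1)` is
`X_jl(± c)`. So in each case, with `δ = 4 ∏ d_k`, `N` contains all `X_ij(δ c)` or all `Y_ij(δ c)`,
`c ∈ R`, for some `i ≠ j`. By commutators with `X(1)`, `Y(1)`, `Z(1)` (`p ≥ 3`) `N` contains all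
`X_ij(δ c)`, `Y_ij(δ c)`, `Z_ij(δ c)`, `i ≠ j`, and all `E(e_i, δ c g_k)`, `E(f_i, δ c g_k)`
(formula in ZO-PERF), so all `E(e_i, δ w)`, `E(f_i, δ w)` and their conjugates. -/
def SNC : Prop :=
  ∀ (R : Type) [CommRing R] [IsDomain R] (m q : ℕ) (d : Fin q → R)
    (N : Subgroup (Ga (p := m + 3) d)), N.Normal →
    ∀ t ∈ N, t ∈ Ds (p := m + 3) d → t.1 ≠ 1 → t.1 ≠ -1 →
    ∀ x : Ga (p := m + 3) d, x.1 ∈ EEO d (4 * ∏ k, d k) → x ∈ N

/-- JOB ZO-DG. The group of the sign changes and its real representations.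

Proof. Every element of `Dg` has square `1` and is determined by its signs and swaps; in a domain
with `2 ≠ 0` they are different, so `Dg R p q` has `4 ^ p * 2 ^ q` elements (for each `i` four
possibilities, for each `k` two), each of these is invertible, and `Dg` is abelian. Let `S` be a
subgroup of index `≤ 2 ^ k`, `ρ` a real representation on `V`, `finrank V = n < 2 p + q - 1 - k`. The
commuting operators `ρ g`, `g ∈ S`, have squares `1`; the kernel of `ρ` has at least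
`|S| / 2 ^ n` elements (induction on `n`: a common eigenvector, or a simultaneous eigenbasis, gives
`n` homomorphisms `S → {± 1}` whose common kernel is trivial on `V`; Mathlib:
`LinearMap.IsSymmetric`-free version: `Module.End` simultaneous eigenspaces, or split
`V = ker (ρ g - 1) ⊕ ker (ρ g + 1)` and induct on the dimension). So it has at least
`2 ^ (2 p + q - k - n) ≥ 4` elements, one of them is not `± 1`. -/
def SDg : Prop :=
  ∀ (R : Type) [CommRing R] [IsDomain R], (2 : R) ≠ 0 → ∀ (p q : ℕ),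
    Finite (Dg R p q) ∧ IsPGroup 2 (Dg R p q) ∧
    ∀ (k : ℕ) (S : Subgroup (Dg R p q)), S.index ≤ 2 ^ k →
    ∀ (V : Type) [AddCommGroup V] [Module ℝ V] [FiniteDimensional ℝ V] (ρ : S →* (V →ₗ[ℝ] V)),
      Module.finrank ℝ V < 2 * p + q - 1 - k →
      ∃ s : S, ρ s = 1 ∧ s.1.1 ≠ 1 ∧ s.1.1 ≠ -1

/-- JOB ZO-NRM. The sign changes normalise `EO`, and everything in `Ga` is an isometry.

Proof. For `t ∈ Dg`, `t E(u, w) t⁻¹ = E(t u, t w)`, `t u = ± e_i` or `± f_i`,
`E(-u, w) = E(u, -w)`, and `t w` has no components at `e_i`, `f_i`. The elements of `Dg` are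
isometries: `(1 0)`- and `(0 1)`-blocks preserve `x_i y_i`. -/
def SNrm : Prop :=
  ∀ (R : Type) [CommRing R] (p q : ℕ) (d : Fin q → R),
    ((EO d).subgroupOf (Ga (p := p) d)).Normal ∧ (∀ x ∈ Ga (p := p) d, IsIso d x)

/-- (helper4) finiteness -/
def SFin : Prop :=
  ∀ (F : Type) [Field F] [NumberField F] (m q : ℕ) (d : Fin q → 𝓞 F), (∀ k, d k ≠ 0) →
    ∀ a : 𝓞 F, a ≠ 0 → ∀ N : Subgroup (Ga (p := m + 3) d), N.Normal →
      (∀ x : Ga (p := m + 3) d, x.1 ∈ EEO d a → x ∈ N) → N.FiniteIndex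

end Q4.ZO
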